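import Mathlib

/-!
# MS14 (helper570): lattice cells and Jordan measurable sets
-/

set_option autoImplicit false

namespace Pool.Agent.N570.MS

open MeasureTheory

/-- the cells -/
def cell (s : ℝ) (p : ℤ × ℤ) : Set (ℝ × ℝ) :=
  Set.Ico ((p.1 : ℝ) * s) (((p.1 : ℝ) + 1) * s) ×ˢ Set.Ico ((p.2 : ℝ) * s) (((p.2 : ℝ) + 1) * s)

lemma mem_cell {s : ℝ} {p : ℤ × ℤ} {x : ℝ × ℝ} : x ∈ cell s p ↔
    ((p.1 : ℝ) * s ≤ x.1 ∧ x.1 < ((p.1 : ℝ) + 1) * s) ∧
    ((p.2 : ℝ) * s ≤ x.2 ∧ x.2 < ((p.2 : ℝ) + 1) * s) := Iff.rfl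

lemma mem_cell_floor {s : ℝ} (hs : 0 < s) (x : ℝ × ℝ) : x ∈ cell s (⌊x.1 / s⌋, ⌊x.2 / s⌋) := by
  rw [mem_cell]
  have h1 := Int.floor_le (x.1 / s)
  have h2 := Int.lt_floor_add_one (x.1 / s)
  have h3 := Int.floor_le (x.2 / s)
  have h4 := Int.lt_floor_add_one (x.2 / s)
  rw [le_div_iff₀ hs] at h1 h3
  rw [div_lt_iff₀ hs] at h2 h4
  exact ⟨⟨h1, h2⟩, h3, h4⟩

lemma cell_unique {s : ℝ} (hs : 0 < s) {x : ℝ × ℝ} {p : ℤ × ℤ} (h : x ∈ cell s p) :
    p = (⌊x.1 / s⌋, ⌊x.2 / s⌋) := by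
  rw [mem_cell] at h
  obtain ⟨⟨h1, h2⟩, h3, h4⟩ := h
  have e1 : ⌊x.1 / s⌋ = p.1 := by
    rw [Int.floor_eq_iff]
    rw [le_div_iff₀ hs, div_lt_iff₀ hs]
    exact ⟨h1, h2⟩
  have e2 : ⌊x.2 / s⌋ = p.2 := by
    rw [Int.floor_eq_iff]
    rw [le_div_iff₀ hs, div_lt_iff₀ hs]
    exact ⟨h3, h4⟩
  rw [e1, e2]

lemma cell_disjoint {s : ℝ} (hs : 0 < s) {p q : ℤ × ℤ} (h : p ≠ q) :
    Disjoint (cell s p) (cell s q) := by
  rw [Set.disjoint_left]
  intro x hx hy
  exact h ((cell_unique hs hx).trans (cell_unique hs hy).symm)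

lemma cell_meas (s : ℝ) (p : ℤ × ℤ) : MeasurableSet (cell s p) :=
  measurableSet_Ico.prod measurableSet_Ico

lemma cell_vol {s : ℝ} (hs : 0 < s) (p : ℤ × ℤ) : volume (cell s p) = ENNReal.ofReal (s ^ 2) := by
  unfold cell
  rw [Measure.volume_eq_prod, Measure.prod_prod, Real.volume_Ico, Real.volume_Ico,
    ← ENNReal.ofReal_mul (by nlinarith)]
  congr 1
  ring

lemma cell_conn (s : ℝ) (p : ℤ × ℤ) : IsPreconnected (cell s p) :=
  isPreconnected_Ico.prod isPreconnected_Ico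

lemma cell_dist {s : ℝ} {p : ℤ × ℤ} {x y : ℝ × ℝ} (hx : x ∈ cell s p)
    (hy : y ∈ cell s p) : dist x y ≤ s := by
  rw [mem_cell] at hx hy
  rw [Prod.dist_eq, max_le_iff, Real.dist_eq, Real.dist_eq, abs_le, abs_le]
  refine ⟨⟨?_, ?_⟩, ?_, ?_⟩ <;> linarith [hx.1.1, hx.1.2, hx.2.1, hx.2.2, hy.1.1, hy.1.2, hy.2.1,
    hy.2.2]

/-- the number of cells which meet a set -/
lemma vol_cells {s : ℝ} (hs : 0 < s) (B : Finset (ℤ × ℤ)) :
    volume (⋃ p ∈ B, cell s p) = (B.card : ENNReal) * ENNReal.ofReal (s ^ 2) := by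
  rw [measure_biUnion_finset (fun p _ q _ h => cell_disjoint hs h) (fun p _ => cell_meas s p),
    Finset.sum_congr rfl (fun p _ => cell_vol hs p), Finset.sum_const, nsmul_eq_mul]

lemma count_le {s δ : ℝ} (hs : 0 < s) (hδ : 0 ≤ δ) (B : Finset (ℤ × ℤ)) (K : Set (ℝ × ℝ))
    (hB : ∀ p ∈ B, cell s p ⊆ K) (hK : volume K ≤ ENNReal.ofReal δ) : (B.card : ℝ) * s ^ 2 ≤ δ := by
  have h1 : volume (⋃ p ∈ B, cell s p) ≤ volume K := measure_mono (Set.iUnion₂_subset hB)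
  rw [vol_cells hs] at h1
  have h2 := h1.trans hK
  rw [← ENNReal.ofReal_natCast, ← ENNReal.ofReal_mul (by positivity),
    ENNReal.ofReal_le_ofReal_iff hδ] at h2
  exact h2

/-- cells which meet a set and its complement meet the boundary -/
lemma cell_frontier {s : ℝ} {p : ℤ × ℤ} {U : Set (ℝ × ℝ)} (h1 : (cell s p ∩ U).Nonempty)
    (h2 : ¬ cell s p ⊆ U) : cell s p ⊆ Metric.cthickening s (frontier U) := by
  have h3 : (cell s p ∩ frontier U).Nonempty := by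
    by_contra h
    rw [Set.not_nonempty_iff_eq_empty] at h
    have h4 : cell s p ⊆ interior U ∪ interior Uᶜ := by
      intro x hx
      by_contra h5
      rw [Set.mem_union, not_or] at h5
      have h6 : x ∈ frontier U := by
        rw [frontier, Set.mem_sdiff]
        refine ⟨?_, h5.1⟩
        have h7 := h5.2
        rw [interior_compl, Set.mem_compl_iff, not_not] at h7
        exact h7
      have h7 : x ∈ cell s p ∩ frontier U := ⟨hx, h6⟩
      rw [h] at h7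
      exact h7
    rcases IsPreconnected.subset_or_subset isOpen_interior isOpen_interior
      (Set.disjoint_left.2 fun x hx hy => (interior_subset hy : x ∈ Uᶜ) (interior_subset hx)) h4
      (cell_conn s p) with h5 | h5
    · exact h2 (h5.trans interior_subset)
    · obtain ⟨x, hx, hxU⟩ := h1
      exact (interior_subset (h5 hx)) hxU
  obtain ⟨y, hy, hyK⟩ := h3
  intro x hx
  exact Metric.mem_cthickening_of_dist_le x y s _ hyK (cell_dist hx hy)

/-- the boundary is thin -/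
lemma thin {U : Set (ℝ × ℝ)} (hb : Bornology.IsBounded U) (h0 : volume (frontier U) = 0) {δ : ℝ}
    (hδ : 0 < δ) : ∃ r : ℝ, 0 < r ∧ ∀ s : ℝ, 0 < s → s < r →
      volume (Metric.cthickening s (frontier U)) ≤ ENNReal.ofReal δ := by
  have hK : IsCompact (frontier U) :=
    Metric.isCompact_of_isClosed_isBounded isClosed_frontier
      (hb.closure.subset frontier_subset_closure)
  have h1 := tendsto_measure_cthickening_of_isCompact (μ := (volume : Measure (ℝ × ℝ))) hK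
  rw [h0] at h1
  have h2 : ∀ᶠ r in nhds (0 : ℝ), volume (Metric.cthickening r (frontier U)) < ENNReal.ofReal δ :=
    h1.eventually_lt_const (ENNReal.ofReal_pos.2 hδ)
  rw [Metric.eventually_nhds_iff] at h2
  obtain ⟨r, hr, h3⟩ := h2
  refine ⟨r, hr, fun s hs hsr => (h3 ?_).le⟩
  rw [Real.dist_eq, sub_zero, abs_of_pos hs]
  exact hsr

open scoped Classical in
/-- the cells which meet `U` -/
lemma exists_all {U : Set (ℝ × ℝ)} (hb : Bornology.IsBounded U) {s : ℝ} (hs : 0 < s) :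
    ∃ A : Finset (ℤ × ℤ), ∀ p, p ∈ A ↔ (cell s p ∩ U).Nonempty := by
  obtain ⟨C, hC⟩ := hb.subset_closedBall (0 : ℝ × ℝ)
  have hC' : ∀ x ∈ U, |x.1| ≤ C ∧ |x.2| ≤ C := by
    intro x hx
    have h1 := hC hx
    rw [Metric.mem_closedBall, dist_zero_right, Prod.norm_def, max_le_iff, Real.norm_eq_abs,
      Real.norm_eq_abs] at h1
    exact h1
  have hfin : {p : ℤ × ℤ | (cell s p ∩ U).Nonempty}.Finite := by
    refine ((Set.finite_Icc (-(⌈C / s⌉ + 1)) (⌈C / s⌉ + 1)).prod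
      (Set.finite_Icc (-(⌈C / s⌉ + 1)) (⌈C / s⌉ + 1))).subset ?_
    rintro p ⟨x, hx, hxU⟩
    obtain ⟨h1, h2⟩ := hC' x hxU
    rw [abs_le] at h1 h2
    rw [mem_cell] at hx
    have h3 : C / s ≤ ⌈C / s⌉ := Int.le_ceil _
    rw [div_le_iff₀ hs] at h3
    refine ⟨⟨?_, ?_⟩, ?_, ?_⟩
    · have : -(((⌈C / s⌉ : ℤ) : ℝ) + 1) ≤ p.1 := by
        by_contra h
        rw [not_le] at h
        nlinarith [hx.1.2]
      exact_mod_cast this
    · have : (p.1 : ℝ) ≤ ((⌈C / s⌉ : ℤ) : ℝ) + 1 := by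
        by_contra h
        rw [not_le] at h
        nlinarith [hx.1.1]
      exact_mod_cast this
    · have : -(((⌈C / s⌉ : ℤ) : ℝ) + 1) ≤ p.2 := by
        by_contra h
        rw [not_le] at h
        nlinarith [hx.2.2]
      exact_mod_cast this
    · have : (p.2 : ℝ) ≤ ((⌈C / s⌉ : ℤ) : ℝ) + 1 := by
        by_contra h
        rw [not_le] at h
        nlinarith [hx.2.1]
      exact_mod_cast this
  exact ⟨hfin.toFinset, fun p => by rw [Set.Finite.mem_toFinset]; rfl⟩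

open scoped Classical in
/-- inner and boundary cells -/
theorem cells_ {U : Set (ℝ × ℝ)} (hb : Bornology.IsBounded U) (h0 : volume (frontier U) = 0)
    {δ : ℝ} (hδ : 0 < δ) : ∃ r : ℝ, 0 < r ∧ ∀ s : ℝ, 0 < s → s < r →
    ∃ I B : Finset (ℤ × ℤ), (∀ p ∈ I, cell s p ⊆ U) ∧ (∀ x ∈ U, ∀ p, x ∈ cell s p → p ∈ I ∨ p ∈ B) ∧
      (B.card : ℝ) * s ^ 2 ≤ δ ∧ volume.real U ≤ I.card * s ^ 2 + δ := by
  obtain ⟨r, hr, h1⟩ := thin hb h0 hδ
  refine ⟨r, hr, fun s hs hsr => ?_⟩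
  obtain ⟨A, hA⟩ := exists_all hb hs
  have hcov : ∀ x ∈ U, ∀ p, x ∈ cell s p → p ∈ A.filter (fun p => cell s p ⊆ U) ∨
      p ∈ A.filter (fun p => ¬ cell s p ⊆ U) := by
    intro x hx p hp
    have hpA : p ∈ A := (hA p).2 ⟨x, hp, hx⟩
    by_cases h : cell s p ⊆ U
    · left
      rw [Finset.mem_filter]
      exact ⟨hpA, h⟩
    · right
      rw [Finset.mem_filter]
      exact ⟨hpA, h⟩
  have hB : ((A.filter (fun p => ¬ cell s p ⊆ U)).card : ℝ) * s ^ 2 ≤ δ := by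
    refine count_le hs hδ.le _ _ ?_ (h1 s hs hsr)
    intro p hp
    rw [Finset.mem_filter] at hp
    exact cell_frontier ((hA p).1 hp.1) hp.2
  refine ⟨A.filter (fun p => cell s p ⊆ U), A.filter (fun p => ¬ cell s p ⊆ U), ?_, hcov, hB, ?_⟩
  · intro p hp
    rw [Finset.mem_filter] at hp
    exact hp.2
  · have h2 : volume U ≤ volume (⋃ p ∈ A, cell s p) := by
      apply measure_mono
      intro x hx
      rw [Set.mem_iUnion₂]
      exact ⟨_, (hA _).2 ⟨x, mem_cell_floor hs x, hx⟩, mem_cell_floor hs x⟩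
    rw [vol_cells hs] at h2
    have h3 : volume.real U ≤ (A.card : ℝ) * s ^ 2 := by
      unfold Measure.real
      refine ENNReal.toReal_le_of_le_ofReal (by positivity) ?_
      rw [ENNReal.ofReal_mul (by positivity), ENNReal.ofReal_natCast]
      exact h2
    have h4 : (A.card : ℝ) = ((A.filter (fun p => cell s p ⊆ U)).card : ℝ) +
        ((A.filter (fun p => ¬ cell s p ⊆ U)).card : ℝ) := by
      rw [← Nat.cast_add, Finset.card_filter_add_card_filter_not]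
    rw [h4, add_mul] at h3
    linarith

end Pool.Agent.N570.MS
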