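import Pool.Agent.N570.MS.Fol
import Pool.Agent.N570.MS.Cells

/-!
# MS14: dilated Folner sequences (helper570)
-/

set_option autoImplicit false

namespace Pool.Agent.N570.MS

open Finset MeasureTheory
open Pool.Agent.N912.MS

lemma floor_div (L : ℕ) (a p : ℤ) {k : ℝ} (hk : 0 < k) :
    ((p : ℝ) * ((L : ℝ) / k) ≤ (a : ℝ) / k ∧ (a : ℝ) / k < ((p : ℝ) + 1) * ((L : ℝ) / k)) ↔
      ((L : ℤ) * p ≤ a ∧ a < (L : ℤ) * p + L) := by
  rw [← mul_div_assoc, ← mul_div_assoc, div_le_div_iff_of_pos_right hk,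
    div_lt_div_iff_of_pos_right hk]
  constructor
  · rintro ⟨h1, h2⟩
    constructor
    · have : ((L : ℤ) * p : ℝ) ≤ a := by push_cast; linarith
      exact_mod_cast this
    · have : (a : ℝ) < ((L : ℤ) * p + (L : ℤ) : ℝ) := by push_cast; linarith
      exact_mod_cast this
  · rintro ⟨h1, h2⟩
    have h1' : ((L : ℝ) * p) ≤ a := by exact_mod_cast h1
    have h2' : (a : ℝ) < (L : ℝ) * p + L := by exact_mod_cast h2
    constructor
    · linarith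
    · linarith

/-- the corner of a tile -/
def cr (L : ℕ) (p : ℤ × ℤ) : Gi := ⟨(L : ℤ) * p.1, (L : ℤ) * p.2⟩

lemma mem_sq_cr (L : ℕ) {k : ℝ} (hk : 0 < k) (p : ℤ × ℤ) (u : Gi) :
    u ∈ sq (cr L p) L ↔ (((u.re : ℝ) / k, (u.im : ℝ) / k) : ℝ × ℝ) ∈ cell ((L : ℝ) / k) p := by
  rw [mem_sq, mem_cell]
  dsimp only [cr]
  rw [floor_div L _ _ hk, floor_div L _ _ hk]

lemma mem_dil {U : Set (ℝ × ℝ)} {k : ℝ} (hk : 0 < k) {u : Gi} :
    u ∈ dil U k ↔ u ≠ 0 ∧ (((u.re : ℝ) / k, (u.im : ℝ) / k) : ℝ × ℝ) ∈ U := by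
  unfold dil
  rw [Set.mem_ofPred_eq]
  refine and_congr_right fun _ => ?_
  constructor
  · rintro ⟨x, hx, h1, h2⟩
    rw [h1, h2, mul_div_cancel_left₀ _ hk.ne', mul_div_cancel_left₀ _ hk.ne']
    exact hx
  · intro h
    refine ⟨_, h, ?_, ?_⟩
    · dsimp only
      rw [mul_div_cancel₀ _ hk.ne']
    · dsimp only
      rw [mul_div_cancel₀ _ hk.ne']

lemma exists_bd {U : Set (ℝ × ℝ)} (hb : Bornology.IsBounded U) :
    ∃ C : ℝ, 1 ≤ C ∧ ∀ x ∈ U, |x.1| ≤ C ∧ |x.2| ≤ C := by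
  obtain ⟨C, hC⟩ := hb.subset_closedBall (0 : ℝ × ℝ)
  refine ⟨max C 1, le_max_right _ _, fun x hx => ?_⟩
  have h1 := hC hx
  rw [Metric.mem_closedBall, dist_zero_right, Prod.norm_def, max_le_iff, Real.norm_eq_abs,
    Real.norm_eq_abs] at h1
  exact ⟨h1.1.trans (le_max_left _ _), h1.2.trans (le_max_left _ _)⟩

lemma dil_bx {U : Set (ℝ × ℝ)} {C : ℝ} (hC : ∀ x ∈ U, |x.1| ≤ C ∧ |x.2| ≤ C) {k : ℝ} (hk : 0 < k)
    {u : Gi} (hu : u ∈ dil U k) : |u.re| ≤ (⌈C * k⌉₊ : ℤ) ∧ |u.im| ≤ (⌈C * k⌉₊ : ℤ) := by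
  rw [mem_dil hk] at hu
  obtain ⟨h1, h2⟩ := hC _ hu.2
  dsimp only at h1 h2
  rw [abs_div, abs_of_pos hk, div_le_iff₀ hk] at h1 h2
  have h3 := Nat.le_ceil (C * k)
  constructor
  · have : (|u.re| : ℝ) ≤ ((⌈C * k⌉₊ : ℤ) : ℝ) := by
      push_cast
      exact h1.trans h3
    exact_mod_cast this
  · have : (|u.im| : ℝ) ≤ ((⌈C * k⌉₊ : ℤ) : ℝ) := by
      push_cast
      exact h2.trans h3
    exact_mod_cast this

lemma dil_finite {U : Set (ℝ × ℝ)} (hb : Bornology.IsBounded U) {k : ℝ} (hk : 0 < k) :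
    (dil U k).Finite := by
  obtain ⟨C, _, hC⟩ := exists_bd hb
  refine (bx2 ⌈C * k⌉₊).finite_toSet.subset ?_
  intro u hu
  obtain ⟨h1, h2⟩ := dil_bx hC hk hu
  rw [mem_coe, mem_bx2]
  rw [abs_le] at h1 h2
  exact ⟨h1, h2⟩

/-- the dilated set has many points -/
lemma dil_card {U : Set (ℝ × ℝ)} (hU : JM U) : ∃ c : ℝ, 0 < c ∧ ∃ k₀ : ℝ, ∀ k : ℝ, k₀ ≤ k → 0 < k →
    ∀ Φ : Finset Gi, (Φ : Set Gi) = dil U k → c * k ^ 2 ≤ Φ.card := by
  have hfin : volume U ≠ ⊤ := hU.bdd.measure_lt_top.ne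
  have hv : 0 < volume.real U := ENNReal.toReal_pos hU.pos.ne' hfin
  obtain ⟨r, hr, h1⟩ := cells_ hU.bdd hU.null (δ := volume.real U / 4) (by linarith)
  refine ⟨volume.real U / 2, by linarith, max (1 / r + 1) (4 / volume.real U + 1),
    fun k hk hk0 Φ hΦ => ?_⟩
  rw [max_le_iff] at hk
  have hk1 : 1 / k < r := by
    rw [div_lt_iff₀ hk0]
    have h2 : 1 / r < k := by linarith [hk.1]
    rw [div_lt_iff₀ hr] at h2
    linarith
  obtain ⟨I, B, hI, -, hB, hvol⟩ := h1 (1 / k) (by positivity) hk1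
  have h2 : I.card ≤ Φ.card + 1 := by
    have h3 : I.image (cr 1) ⊆ insert 0 Φ := by
      intro u hu
      obtain ⟨p, hp, rfl⟩ := mem_image.1 hu
      rw [mem_insert]
      by_cases h0 : cr 1 p = 0
      · exact Or.inl h0
      · right
        rw [← mem_coe, hΦ, mem_dil hk0]
        refine ⟨h0, hI p hp ?_⟩
        have h4 := (mem_sq_cr 1 hk0 p (cr 1 p)).1 (by
          rw [mem_sq]
          omega)
        rw [Nat.cast_one] at h4
        exact h4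
    have h4 := (card_le_card h3).trans (card_insert_le 0 Φ)
    rwa [card_image_of_injective] at h4
    intro p q h
    have e1 := congrArg QuadraticAlgebra.re h
    have e2 := congrArg QuadraticAlgebra.im h
    simp only [cr, Nat.cast_one, one_mul] at e1 e2
    exact Prod.ext e1 e2
  have h2' : (I.card : ℝ) ≤ Φ.card + 1 := by exact_mod_cast h2
  have h3 : (I.card : ℝ) * (1 / k) ^ 2 ≥ 3 / 4 * volume.real U := by linarith
  have h4 : 3 / 4 * volume.real U * k ^ 2 ≤ I.card := by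
    have e : (I.card : ℝ) = (I.card : ℝ) * (1 / k) ^ 2 * k ^ 2 := by
      field_simp
    rw [e]
    exact mul_le_mul_of_nonneg_right h3 (by positivity)
  have h5 : 4 ≤ volume.real U * k ^ 2 := by
    have h6 : 4 / volume.real U < k := by linarith [hk.2]
    rw [div_lt_iff₀ hv] at h6
    have h7 : 1 ≤ k := by
      have : 0 < 4 / volume.real U := by positivity
      linarith [hk.2]
    nlinarith
  nlinarith

/-- the tiling of the dilated set -/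
lemma dil_tile {U : Set (ℝ × ℝ)} (hU : JM U) {L : ℕ} (hL : 0 < L) {δ : ℝ} (hδ : 0 < δ) :
    ∃ k₀ : ℝ, ∀ k : ℝ, k₀ ≤ k → 0 < k → ∃ T : Finset Gi,
      (∀ τ ∈ T, ∀ τ' ∈ T, τ ≠ τ' → Disjoint (sq τ L) (sq τ' L)) ∧
      (∀ τ ∈ T, ∀ u ∈ sq τ L, u ∈ dil U k ∨ u = 0) ∧
      (∀ W : Finset Gi, (∀ u ∈ W, u ∈ dil U k ∧ ∀ τ ∈ T, u ∉ sq τ L) →
        (W.card : ℝ) ≤ δ * k ^ 2) := by
  have hL' : (0 : ℝ) < L := by exact_mod_cast hL
  obtain ⟨r, hr, h1⟩ := cells_ hU.bdd hU.null hδ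
  refine ⟨L / r + 1, fun k hk hk0 => ?_⟩
  have hk1 : (L : ℝ) / k < r := by
    rw [div_lt_iff₀ hk0]
    have h2 : L / r < k := by linarith
    rw [div_lt_iff₀ hr] at h2
    linarith
  have hs : 0 < (L : ℝ) / k := by positivity
  obtain ⟨I, B, hI, hcov, hB, -⟩ := h1 (L / k) hs hk1
  refine ⟨I.image (cr L), ?_, ?_, ?_⟩
  · intro τ hτ τ' hτ' hne
    obtain ⟨p, hp, rfl⟩ := mem_image.1 hτ
    obtain ⟨q, hq, rfl⟩ := mem_image.1 hτ'
    rw [disjoint_left]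
    intro u hu hu'
    rw [mem_sq_cr L hk0] at hu hu'
    apply hne
    rw [cell_unique hs hu, cell_unique hs hu']
  · intro τ hτ u hu
    obtain ⟨p, hp, rfl⟩ := mem_image.1 hτ
    rw [mem_sq_cr L hk0] at hu
    by_cases h0 : u = 0
    · exact Or.inr h0
    · left
      rw [mem_dil hk0]
      exact ⟨h0, hI p hp hu⟩
  · intro W hW
    have h2 : W ⊆ B.biUnion fun p => sq (cr L p) L := by
      intro u hu
      obtain ⟨h3, h4⟩ := hW u hu
      rw [mem_dil hk0] at h3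
      rcases hcov _ h3.2 _ (mem_cell_floor hs _) with h5 | h5
      · exfalso
        refine h4 (cr L _) (mem_image_of_mem _ h5) ?_
        rw [mem_sq_cr L hk0]
        exact mem_cell_floor hs _
      · rw [mem_biUnion]
        refine ⟨_, h5, ?_⟩
        rw [mem_sq_cr L hk0]
        exact mem_cell_floor hs _
    have h3 : W.card ≤ B.card * L ^ 2 := by
      refine (card_le_card h2).trans ?_
      refine card_biUnion_le_card_mul _ _ _ fun p _ => ?_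
      rw [card_sq]
    have h4 : (W.card : ℝ) ≤ B.card * (L : ℝ) ^ 2 := by exact_mod_cast h3
    have e : (B.card : ℝ) * (L : ℝ) ^ 2 = B.card * ((L : ℝ) / k) ^ 2 * k ^ 2 := by
      field_simp
    rw [e] at h4
    exact h4.trans (mul_le_mul_of_nonneg_right hB (by positivity))

/-- **FIN2** -/
theorem fin2 : S_FIN2 := by
  classical
  intro f μ hf hμ hA U k hU hk hkt ε hε
  obtain ⟨C, hC1, hC⟩ := exists_bd hU.bdd
  obtain ⟨c, hc, k₀, hcard⟩ := dil_card hU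
  -- the constants
  have hc₁ : 0 < (C + 1) ^ 2 / c := by positivity
  have hε' : 0 < ε / (4 * ((C + 1) ^ 2 / c)) := by positivity
  obtain ⟨L₀, hL⟩ := hA _ hε'
  obtain ⟨k₁, htile⟩ := dil_tile hU (L := L₀ + 1) (by omega) (δ := ε * c / 8) (by positivity)
  obtain ⟨R₀, hR₀⟩ := hL (L₀ + 1) (by omega)
  have hev := hkt.eventually_ge_atTop (max (max k₀ k₁) (max (3 / c + 1) ((16 + 2 * ε) / (ε * c) + 1)))
  rw [Filter.eventually_atTop] at hev
  obtain ⟨H₀, hH₀⟩ := hev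
  refine ⟨H₀, fun H hH => ?_⟩
  have hkH := hH₀ H hH
  rw [max_le_iff, max_le_iff, max_le_iff] at hkH
  obtain ⟨⟨hk0, hk1⟩, hk2, hk3⟩ := hkH
  obtain ⟨T, hT1, hT2, hT3⟩ := htile (k H) hk1 (hk H)
  let D : ℕ := T.sup fun τ => τ.re.natAbs + τ.im.natAbs
  have hD : ∀ τ ∈ T, |τ.re| ≤ D ∧ |τ.im| ≤ D := by
    intro τ hτ
    have h1 : τ.re.natAbs + τ.im.natAbs ≤ D :=
      Finset.le_sup (f := fun τ : Gi => τ.re.natAbs + τ.im.natAbs) hτ
    rw [Int.abs_eq_natAbs, Int.abs_eq_natAbs]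
    exact ⟨Int.ofNat_le.2 ((Nat.le_add_right _ _).trans h1),
      Int.ofNat_le.2 ((Nat.le_add_left _ _).trans h1)⟩
  have hev2 := hkt.eventually_ge_atTop (max (max k₀ 1) (max (R₀ : ℝ) (D + 1)))
  rw [Filter.eventually_atTop] at hev2
  obtain ⟨N₀, hN₀⟩ := hev2
  refine ⟨N₀, fun N hN => ?_⟩
  have hkN := hN₀ N hN
  rw [max_le_iff, max_le_iff, max_le_iff] at hkN
  obtain ⟨⟨hn0, hn1⟩, hn2, hn3⟩ := hkN
  let Φ : Finset Gi := (dil_finite hU.bdd (hk H)).toFinset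
  let Ψ : Finset Gi := (dil_finite hU.bdd (hk N)).toFinset
  have hΦ : (Φ : Set Gi) = dil U (k H) := Set.Finite.coe_toFinset _
  have hΨ : (Ψ : Set Gi) = dil U (k N) := Set.Finite.coe_toFinset _
  have hΦ' : ∀ u, u ∈ Φ ↔ u ∈ dil U (k H) := fun u => by rw [← mem_coe, hΦ]
  have hΨ' : ∀ u, u ∈ Ψ ↔ u ∈ dil U (k N) := fun u => by rw [← mem_coe, hΨ]
  have hcΦ := hcard (k H) hk0 (hk H) Φ hΦ
  have hcΨ := hcard (k N) hn0 (hk N) Ψ hΨ
  rw [← hΦ, ← hΨ]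
  have hkH1 : 1 ≤ k H := by
    have : 0 < 3 / c := by positivity
    linarith
  have hM : 3 ≤ c * k H ^ 2 := by
    have h1 : 3 / c ≤ k H := by linarith
    rw [div_le_iff₀ hc] at h1
    nlinarith
  have hM2 : 16 + 2 * ε ≤ ε * c * k H ^ 2 := by
    have h1 : (16 + 2 * ε) / (ε * c) ≤ k H := by linarith
    rw [div_le_iff₀ (by positivity)] at h1
    have h2 : 0 < ε * c := by positivity
    nlinarith
  have hRR : (R₀ : ℝ) ≤ ((⌈C * k N⌉₊ + D : ℕ) : ℝ) := by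
    have h1 := Nat.le_ceil (C * k N)
    have h2 : k N ≤ C * k N := by nlinarith
    push_cast
    have h3 : (0 : ℝ) ≤ D := Nat.cast_nonneg D
    linarith
  have hRle : ((⌈C * k N⌉₊ + D : ℕ) : ℝ) ≤ (C + 1) * k N := by
    have h1 := Nat.ceil_lt_add_one (by positivity : (0 : ℝ) ≤ C * k N)
    push_cast
    linarith
  refine folner f μ hf hμ Φ Ψ T (L₀ + 1) (⌈C * k N⌉₊ + D) (ε * c / 8 * k H ^ 2)
    (ε / (4 * ((C + 1) ^ 2 / c))) ((C + 1) ^ 2 / c) ε hT1 ?_ ?_ ?_ ?_ ?_ ?_ ?_ hε'.le ?_ ?_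
  · intro τ hτ u hu
    rw [hΦ']
    exact hT2 τ hτ u hu
  · intro W hW
    exact hT3 W fun u hu => ⟨(hΦ' u).1 (hW u hu).1, (hW u hu).2⟩
  · intro n hn τ hτ
    rw [hΨ'] at hn
    obtain ⟨h1, h2⟩ := dil_bx hC (hk N) hn
    obtain ⟨h3, h4⟩ := hD τ hτ
    rw [abs_le] at h1 h2 h3 h4
    rw [mem_bx2, QuadraticAlgebra.re_add, QuadraticAlgebra.im_add]
    push_cast
    omega
  · exact hR₀ _ (by exact_mod_cast hRR)
  · linarith
  · have : 0 < c * k N ^ 2 := by positivity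
    linarith
  · calc ((⌈C * k N⌉₊ + D : ℕ) : ℝ) ^ 2 ≤ ((C + 1) * k N) ^ 2 := by gcongr
      _ = (C + 1) ^ 2 / c * (c * k N ^ 2) := by field_simp
      _ ≤ _ := by gcongr
  · nlinarith
  · have : 2 * (ε / (4 * ((C + 1) ^ 2 / c))) * ((C + 1) ^ 2 / c) = ε / 2 := by
      field_simp
      ring
    rw [this]

end Pool.Agent.N570.MS
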