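import Pool.Agent.N912.MS.Stm

/-!
# MS14: dilated Folner sequences (helper570), the combinatorial part
-/

set_option autoImplicit false

namespace Pool.Agent.N570.MS

open Finset
open Pool.Agent.N912.MS

lemma gext {u v : Gi} (h1 : u.re = v.re) (h2 : u.im = v.im) : u = v := QuadraticAlgebra.ext h1 h2

lemma mem_sq {z u : Gi} {L : ℕ} : u ∈ sq z L ↔
    (z.re ≤ u.re ∧ u.re < z.re + L) ∧ (z.im ≤ u.im ∧ u.im < z.im + L) := by
  unfold Pool.Agent.N912.MS.sq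
  simp only [mem_image, mem_product, mem_range, Prod.exists]
  constructor
  · rintro ⟨a, b, ⟨ha, hb⟩, rfl⟩
    dsimp only
    omega
  · rintro ⟨⟨h1, h2⟩, h3, h4⟩
    refine ⟨(u.re - z.re).toNat, (u.im - z.im).toNat, ⟨by omega, by omega⟩, ?_⟩
    apply gext
    · dsimp only
      omega
    · dsimp only
      omega

lemma mem_bx2 {u : Gi} {R : ℕ} : u ∈ bx2 R ↔
    (-(R : ℤ) ≤ u.re ∧ u.re ≤ R) ∧ (-(R : ℤ) ≤ u.im ∧ u.im ≤ R) := by
  unfold bx2
  simp only [mem_image, mem_product, mem_Icc, Prod.exists]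
  constructor
  · rintro ⟨a, b, h, rfl⟩
    exact h
  · intro h
    exact ⟨u.re, u.im, h, rfl⟩

lemma card_sq (z : Gi) (L : ℕ) : (sq z L).card = L ^ 2 := by
  unfold Pool.Agent.N912.MS.sq
  rw [card_image_of_injective, card_product, card_range, pow_two]
  rintro ⟨a, b⟩ ⟨a', b'⟩ h
  have h1 := congrArg QuadraticAlgebra.re h
  have h2 := congrArg QuadraticAlgebra.im h
  simp only at h1 h2
  rw [Prod.mk.injEq]
  omega

lemma card_bx2 (R : ℕ) : (bx2 R).card = (2 * R + 1) ^ 2 := by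
  unfold bx2
  rw [card_image_of_injective, card_product, Int.card_Icc, pow_two]
  · congr 1 <;> omega
  · rintro ⟨a, b⟩ ⟨a', b'⟩ h
    have h1 := congrArg QuadraticAlgebra.re h
    have h2 := congrArg QuadraticAlgebra.im h
    simp only at h1 h2
    rw [Prod.mk.injEq]
    exact ⟨h1, h2⟩

lemma sum_sq_add (g : Gi → ℝ) (n τ : Gi) (L : ℕ) :
    ∑ u ∈ sq (n + τ) L, g u = ∑ u ∈ sq τ L, g (n + u) := by
  symm
  refine sum_bij (fun u _ => n + u) ?_ ?_ ?_ ?_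
  · intro u hu
    rw [mem_sq] at hu ⊢
    simp only [QuadraticAlgebra.re_add, QuadraticAlgebra.im_add]
    omega
  · intro u _ v _ h
    exact add_left_cancel h
  · intro v hv
    refine ⟨v - n, ?_, by abel⟩
    rw [mem_sq] at hv ⊢
    simp only [QuadraticAlgebra.re_add, QuadraticAlgebra.im_add, QuadraticAlgebra.re_sub,
      QuadraticAlgebra.im_sub] at hv ⊢
    omega
  · intro u _
    rfl

/-- sums over sets which are almost equal -/
lemma sum_diff (g : Gi → ℝ) (hg : ∀ u, |g u| ≤ 2) (S S' : Finset Gi) :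
    |∑ u ∈ S, g u| ≤ |∑ u ∈ S', g u| + 2 * ((S \ S').card + (S' \ S).card) := by
  classical
  have h1 := sum_sdiff_sub_sum_sdiff (s₁ := S') (s₂ := S) (f := g)
  have h2 : ∀ W : Finset Gi, |∑ u ∈ W, g u| ≤ 2 * W.card := by
    intro W
    refine (abs_sum_le_sum_abs _ _).trans ?_
    refine (sum_le_sum fun u _ => hg u).trans ?_
    rw [sum_const, nsmul_eq_mul, mul_comm]
  have h3 := h2 (S \ S')
  have h4 := h2 (S' \ S)
  have h5 : ∑ u ∈ S, g u = ∑ u ∈ S', g u + (∑ u ∈ S \ S', g u - ∑ u ∈ S' \ S, g u) := by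
    rw [h1]
    ring
  rw [h5]
  refine (abs_add_le _ _).trans ?_
  have h6 := abs_sub (∑ u ∈ S \ S', g u) (∑ u ∈ S' \ S, g u)
  linarith

/-- the shifted set without zero -/
noncomputable def sh (Φ : Finset Gi) (n : Gi) : Finset Gi := (Φ.image (fun u => n + u)).erase 0

lemma sh_coe (Φ : Finset Gi) (n : Gi) :
    {h : Gi | h ≠ 0 ∧ ∃ u ∈ (Φ : Set Gi), h = n + u} = (sh Φ n : Set Gi) := by
  ext h
  unfold sh
  simp only [Set.mem_ofPred_eq, mem_coe, mem_erase, mem_image, ne_eq]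
  constructor
  · rintro ⟨h1, u, hu, h2⟩
    exact ⟨h1, u, hu, h2.symm⟩
  · rintro ⟨h1, u, hu, h2⟩
    exact ⟨h1, u, hu, h2.symm⟩

lemma sh_card (Φ : Finset Gi) (n : Gi) : Φ.card ≤ (sh Φ n).card + 1 := by
  unfold sh
  have h1 : (Φ.image (fun u => n + u)).card = Φ.card :=
    card_image_of_injective _ (add_right_injective n)
  have h2 := pred_card_le_card_erase (s := Φ.image (fun u => n + u)) (a := 0)
  omega

lemma avg_coe (S : Finset Gi) (g : Gi → ℝ) : avg (S : Set Gi) g = (∑ z ∈ S, g z) / S.card := by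
  unfold avg
  rw [finsum_mem_coe_finset, Set.ncard_coe_finset]

/-- the sum over the shifted set and the sums over the tiles -/
lemma sh_sum (f : Gi → ℝ) (μ : ℝ) (hf : ∀ z, |f z| ≤ 1) (hμ : |μ| ≤ 1) (Φ T : Finset Gi) (L : ℕ)
    (b : ℝ) (hdis : ∀ τ ∈ T, ∀ τ' ∈ T, τ ≠ τ' → Disjoint (sq τ L) (sq τ' L))
    (hsub : ∀ τ ∈ T, ∀ u ∈ sq τ L, u ∈ Φ ∨ u = 0)
    (hb : ∀ W : Finset Gi, (∀ u ∈ W, u ∈ Φ ∧ ∀ τ ∈ T, u ∉ sq τ L) → (W.card : ℝ) ≤ b) (n : Gi) :
    |∑ u ∈ sh Φ n, (f u - μ)| ≤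
      ∑ τ ∈ T, |∑ u ∈ sq (n + τ) L, (f u - μ)| + 2 * (b + 2) := by
  classical
  let W : Finset Gi := (T.biUnion fun τ => sq τ L).image (fun u => n + u)
  have hg : ∀ u, |f u - μ| ≤ 2 := by
    intro u
    have h1 := abs_sub (f u) μ
    have h2 := hf u
    linarith
  have h1 := sum_diff (fun u => f u - μ) hg (sh Φ n) W
  have h2 : ∑ u ∈ W, (f u - μ) = ∑ τ ∈ T, ∑ u ∈ sq (n + τ) L, (f u - μ) := by
    change ∑ u ∈ (T.biUnion fun τ => sq τ L).image (fun u => n + u), (f u - μ) = _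
    rw [sum_image (fun u _ v _ h => add_left_cancel h), sum_biUnion hdis]
    exact sum_congr rfl fun τ _ => (sum_sq_add (fun u => f u - μ) n τ L).symm
  have h3 : |∑ u ∈ W, (f u - μ)| ≤ ∑ τ ∈ T, |∑ u ∈ sq (n + τ) L, (f u - μ)| := by
    rw [h2]
    exact abs_sum_le_sum_abs _ _
  have h4 : ((sh Φ n \ W).card : ℝ) ≤ b := by
    have h5 : (sh Φ n \ W).card = ((sh Φ n \ W).image (fun u => u - n)).card :=
      (card_image_of_injective _ (sub_left_injective)).symm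
    rw [h5]
    apply hb
    intro u hu
    rw [mem_image] at hu
    obtain ⟨v, hv, rfl⟩ := hu
    rw [mem_sdiff] at hv
    obtain ⟨hv1, hv2⟩ := hv
    unfold sh at hv1
    rw [mem_erase, mem_image] at hv1
    obtain ⟨_, u, hu, rfl⟩ := hv1
    rw [add_sub_cancel_left]
    refine ⟨hu, fun τ hτ h => hv2 ?_⟩
    exact mem_image.2 ⟨u, mem_biUnion.2 ⟨τ, hτ, h⟩, rfl⟩
  have h5 : ((W \ sh Φ n).card : ℝ) ≤ 2 := by
    have h6 : W \ sh Φ n ⊆ {0, n} := by
      intro v hv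
      rw [mem_sdiff] at hv
      obtain ⟨hv1, hv2⟩ := hv
      obtain ⟨u, hu, rfl⟩ := mem_image.1 hv1
      obtain ⟨τ, hτ, hu⟩ := mem_biUnion.1 hu
      rw [mem_insert, mem_singleton]
      rcases hsub τ hτ u hu with h | h
      · left
        by_contra h0
        apply hv2
        unfold sh
        rw [mem_erase, mem_image]
        exact ⟨h0, u, h, rfl⟩
      · right
        rw [h, add_zero]
    have h7 := card_le_card h6
    have h8 : ({0, n} : Finset Gi).card ≤ 2 := card_le_two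
    exact_mod_cast h7.trans h8
  linarith

/-- averages over two sets, the second of which has a tiling -/
theorem folner (f : Gi → ℝ) (μ : ℝ) (hf : ∀ z, |f z| ≤ 1) (hμ : |μ| ≤ 1) (Φ Ψ T : Finset Gi)
    (L R : ℕ) (b ε' c₁ ε : ℝ)
    (hdis : ∀ τ ∈ T, ∀ τ' ∈ T, τ ≠ τ' → Disjoint (sq τ L) (sq τ' L))
    (hsub : ∀ τ ∈ T, ∀ u ∈ sq τ L, u ∈ Φ ∨ u = 0)
    (hb : ∀ W : Finset Gi, (∀ u ∈ W, u ∈ Φ ∧ ∀ τ ∈ T, u ∉ sq τ L) → (W.card : ℝ) ≤ b)
    (hR : ∀ n ∈ Ψ, ∀ τ ∈ T, n + τ ∈ bx2 R)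
    (hS : ∑ z ∈ bx2 R, |∑ u ∈ sq z L, (f u - μ)| ≤ ε' * (L : ℝ) ^ 2 * (R : ℝ) ^ 2)
    (hM : 3 ≤ (Φ.card : ℝ)) (hΨ : 0 < (Ψ.card : ℝ)) (hc : (R : ℝ) ^ 2 ≤ c₁ * Ψ.card)
    (hε' : 0 ≤ ε') (h1 : 2 * (b + 2) ≤ ε / 2 * (Φ.card - 1)) (h2 : 2 * ε' * c₁ ≤ ε / 2) :
    avg (Ψ : Set Gi) (fun n => |avg {h | h ≠ 0 ∧ ∃ u ∈ (Φ : Set Gi), h = n + u} f - μ|) ≤ ε := by
  classical
  have hε'' : 0 ≤ ε' * (L : ℝ) ^ 2 * (R : ℝ) ^ 2 := by positivity
  rw [avg_coe]
  -- the tiles are disjoint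
  have hT : (T.card : ℝ) * (L : ℝ) ^ 2 ≤ Φ.card + 1 := by
    have h3 : (T.biUnion fun τ => sq τ L).card = T.card * L ^ 2 := by
      rw [card_biUnion hdis, sum_congr rfl (fun τ _ => card_sq τ L), sum_const, smul_eq_mul]
    have h4 : (T.biUnion fun τ => sq τ L) ⊆ insert 0 Φ := by
      intro u hu
      obtain ⟨τ, hτ, hu⟩ := mem_biUnion.1 hu
      rw [mem_insert]
      exact (hsub τ hτ u hu).symm
    have h5 := (card_le_card h4).trans (card_insert_le 0 Φ)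
    rw [h3] at h5
    exact_mod_cast h5
  -- the inner averages
  have hin : ∀ n : Gi, |avg {h | h ≠ 0 ∧ ∃ u ∈ (Φ : Set Gi), h = n + u} f - μ| ≤
      (∑ τ ∈ T, |∑ u ∈ sq (n + τ) L, (f u - μ)| + 2 * (b + 2)) / (Φ.card - 1) := by
    intro n
    rw [sh_coe, avg_coe]
    have h3 : (Φ.card : ℝ) - 1 ≤ ((sh Φ n).card : ℝ) := by
      have := sh_card Φ n
      have h4 : (Φ.card : ℝ) ≤ ((sh Φ n).card : ℝ) + 1 := by exact_mod_cast this
      linarith
    have h4 : 0 < ((sh Φ n).card : ℝ) := by linarith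
    have h5 : (∑ z ∈ sh Φ n, f z) / ((sh Φ n).card : ℝ) - μ =
        (∑ z ∈ sh Φ n, (f z - μ)) / ((sh Φ n).card : ℝ) := by
      rw [sum_sub_distrib, sum_const, nsmul_eq_mul]
      field_simp
    rw [h5, abs_div, abs_of_pos h4]
    have h6 := sh_sum f μ hf hμ Φ T L b hdis hsub hb n
    have h7 : 0 ≤ ∑ τ ∈ T, |∑ u ∈ sq (n + τ) L, (f u - μ)| + 2 * (b + 2) :=
      (abs_nonneg _).trans h6
    exact div_le_div₀ h7 h6 (by linarith) h3
  have h3 : ∑ n ∈ Ψ, |avg {h | h ≠ 0 ∧ ∃ u ∈ (Φ : Set Gi), h = n + u} f - μ| ≤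
      (T.card * (ε' * (L : ℝ) ^ 2 * (R : ℝ) ^ 2) + Ψ.card * (2 * (b + 2))) / (Φ.card - 1) := by
    refine (sum_le_sum fun n _ => hin n).trans ?_
    rw [← sum_div, sum_add_distrib, sum_const, nsmul_eq_mul, sum_comm]
    apply div_le_div_of_nonneg_right _ (by linarith)
    gcongr
    rw [← nsmul_eq_mul, ← sum_const]
    refine sum_le_sum fun τ hτ => ?_
    refine le_trans ?_ hS
    rw [← sum_image (s := Ψ) (g := fun n => n + τ) (f := fun z => |∑ u ∈ sq z L, (f u - μ)|)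
      (fun u _ v _ h => add_right_cancel h)]
    apply sum_le_sum_of_subset_of_nonneg
    · intro z hz
      obtain ⟨n, hn, rfl⟩ := mem_image.1 hz
      exact hR n hn τ hτ
    · intros
      exact abs_nonneg _
  rw [div_le_iff₀ hΨ]
  refine h3.trans ?_
  rw [div_le_iff₀ (by linarith)]
  have h4 : T.card * (ε' * (L : ℝ) ^ 2 * (R : ℝ) ^ 2) ≤ (Φ.card + 1) * (ε' * (c₁ * Ψ.card)) := by
    have e1 : T.card * (ε' * (L : ℝ) ^ 2 * (R : ℝ) ^ 2) =
        (T.card * (L : ℝ) ^ 2) * (ε' * (R : ℝ) ^ 2) := by ring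
    rw [e1]
    gcongr
  have h5 : (Φ.card + 1 : ℝ) * (ε' * (c₁ * Ψ.card)) ≤ (ε / 2 * (Φ.card - 1)) * Ψ.card := by
    have hc0 : 0 ≤ c₁ * Ψ.card := (by positivity : (0 : ℝ) ≤ (R : ℝ) ^ 2).trans hc
    have hc1 : 0 ≤ c₁ := by
      by_contra h
      rw [not_le] at h
      have := mul_neg_of_neg_of_pos h hΨ
      linarith
    have e1 : (Φ.card + 1 : ℝ) ≤ 2 * (Φ.card - 1) := by linarith
    calc (Φ.card + 1 : ℝ) * (ε' * (c₁ * Ψ.card)) ≤ (2 * (Φ.card - 1)) * (ε' * (c₁ * Ψ.card)) := by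
          gcongr
      _ = (2 * ε' * c₁) * ((Φ.card - 1) * Ψ.card) := by ring
      _ ≤ (ε / 2) * ((Φ.card - 1) * Ψ.card) := by
          apply mul_le_mul_of_nonneg_right h2
          apply mul_nonneg (by linarith) hΨ.le
      _ = _ := by ring
  have h6 : (Ψ.card : ℝ) * (2 * (b + 2)) ≤ Ψ.card * (ε / 2 * (Φ.card - 1)) := by
    apply mul_le_mul_of_nonneg_left h1 hΨ.le
  linarith

/-- **FIN1** -/
theorem fin1 : S_FIN1 := by
  intro f μ hf hμ hA ε hε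
  obtain ⟨L₀, hL⟩ := hA (ε / 4) (by linarith)
  obtain ⟨A, hA'⟩ := exists_nat_gt (8 / ε)
  refine ⟨L₀ + A + 1, fun H hH => ?_⟩
  obtain ⟨R₀, hR₀⟩ := hL (2 * H + 1) (by omega)
  refine ⟨R₀ + H + 1, fun N hN => ?_⟩
  have hH1 : (1 : ℝ) ≤ H := by exact_mod_cast (by omega : 1 ≤ H)
  have hHA : (A : ℝ) ≤ H := by exact_mod_cast (by omega : A ≤ H)
  have hNH : (H : ℝ) ≤ N := by exact_mod_cast (by omega : H ≤ N)
  have hcard : ((bx2 H).card : ℝ) = (2 * H + 1) ^ 2 := by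
    rw [card_bx2]
    push_cast
    ring
  have hcardN : ((bx2 N).card : ℝ) = (2 * N + 1) ^ 2 := by
    rw [card_bx2]
    push_cast
    ring
  refine folner f μ hf hμ (bx2 H) (bx2 N) {⟨-(H : ℤ), -(H : ℤ)⟩} (2 * H + 1) (N + H) 0 (ε / 4) 1 ε
    ?_ ?_ ?_ ?_ (hR₀ _ (by omega)) ?_ ?_ ?_ (by linarith) ?_ (by linarith)
  · intro τ hτ τ' hτ' h
    rw [mem_singleton] at hτ hτ'
    exact absurd (hτ.trans hτ'.symm) h
  · intro τ hτ u hu
    rw [mem_singleton] at hτ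
    subst hτ
    left
    rw [mem_sq] at hu
    rw [mem_bx2]
    dsimp only at hu
    push_cast at hu
    omega
  · intro W hW
    have : W = ∅ := by
      rw [eq_empty_iff_forall_notMem]
      intro u hu
      obtain ⟨h1, h2⟩ := hW u hu
      apply h2 _ (mem_singleton_self _)
      rw [mem_bx2] at h1
      rw [mem_sq]
      dsimp only
      push_cast
      omega
    rw [this]
    simp
  · intro n hn τ hτ
    rw [mem_singleton] at hτ
    subst hτ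
    rw [mem_bx2] at hn ⊢
    simp only [QuadraticAlgebra.re_add, QuadraticAlgebra.im_add]
    push_cast
    omega
  · rw [hcard]
    nlinarith
  · rw [hcardN]
    positivity
  · rw [hcardN]
    push_cast
    nlinarith
  · rw [hcard]
    have h1 : 8 < ε * H := by
      rw [div_lt_iff₀ hε] at hA'
      nlinarith
    nlinarith

end Pool.Agent.N570.MS
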